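import Pool.Agent.H24.Ku.Free
import Pool.Agent.H63.KA.Defs

/-!
# Facts on coherent sheaves of a smooth projective surface that are used in block KS
-/

namespace Pool.Agent.H63.KS

open CategoryTheory Limits Pretriangulated DerivedCategory H24.Ku

/-- coherent sheaves as objects of the derived category -/
noncomputable abbrev S (X : ProjData) : Coh X ⥤ DerivedCategory (Coh X) :=
  singleFunctor (Coh X) 0

/-- Facts about `Hom(Q, Q'[i])` for coherent sheaves on a smooth projective surface. -/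
structure CohFacts (X : ProjData) : Prop where
  /-- finiteness -/
  fin : ∀ (Q Q' : Coh X) (i : ℤ), Module.Finite ℂ ((S X).obj Q ⟶ ((S X).obj Q')⟦i⟧)
  /-- Serre vanishing -/
  serre : ∀ Q : Coh X, ∃ n₀ : ℤ, ∀ n ≥ n₀, ∀ i : ℤ, 1 ≤ i →
    ∀ f : (S X).obj (O X (-n)) ⟶ ((S X).obj Q)⟦i⟧, f = 0
  /-- cohomological dimension two -/
  cohdim : ∀ (Q : Coh X) (n i : ℤ), 3 ≤ i → ∀ f : (S X).obj (O X n) ⟶ ((S X).obj Q)⟦i⟧, f = 0
  /-- finite homological dimension -/
  gldim : ∃ D : ℕ, ∀ (Q Q' : Coh X) (i : ℤ), (D : ℤ) ≤ i →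
    ∀ f : (S X).obj Q ⟶ ((S X).obj Q')⟦i⟧, f = 0
  /-- every coherent sheaf is a quotient of a sum of copies of `O(-n)`, `n` arbitrarily large -/
  gen : ∀ (Q : Coh X) (n₁ : ℤ), ∃ n ≥ n₁, ∃ (k : ℕ) (e : (⨁ fun _ : Fin k => O X (-n)) ⟶ Q), Epi e

/-- the range predicate on `Db X` -/
def Rng {X : ProjData} (M : Db X) (a b : ℤ) : Prop := M.obj.IsGE a ∧ M.obj.IsLE b

/-- the line bundles `O(-n)` in `Db X` -/
noncomputable def On (X : ProjData) (n : ℤ) : Db X := ODb X (-n)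

end Pool.Agent.H63.KS
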