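import Pool.Agent.H63.KS.StepD

/-!
# KS-4 Base (`SurfaceBase` for `Db X`)

`Db X` is the full subcategory `TStructure.t.bounded` of `DerivedCategory (Coh X)`; the inclusion
`ι` is fully faithful, additive, linear, triangulated, commutes with shifts and (finite) biproducts.
Every field is the corresponding statement in `DerivedCategory (Coh X)` (`vanish_D`, `cohdim_D`,
`homdim_D`, `fin_D`, `step_D`), applied to the underlying objects; a morphism `f` of `Db X` is zero
iff `ι.map f` (or `f.hom`) is.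
* `exists_range`: `M.property`. `shift`: `TStructure.t.isGE_shift`, `isLE_shift` for
`(M⟦n⟧).obj ≅ M.obj⟦n⟧`. `zero_of`: homology is zero (`isGE_iff`, `isLE_iff`), or the t-structure.
* `extFin`: finite dimensional by `fin_D` (`Hom_Db(M, N⟦i⟧) ≃ₗ Hom(M.obj, (N⟦i⟧).obj)`); zero for
`i` large by `homdim_D`, for `-i` large by the t-structure (`TStructure.t.zero`).
* `step`: `ι` preserves the biproduct: `ι (⨁ (On n)⟦-b⟧) ≅ ⨁ (S O(-n))⟦-b⟧`; transport `e` and the
triangle (`ι.map_distinguished`).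
-/

namespace Pool.Agent.H63.KS

open CategoryTheory Limits Pretriangulated DerivedCategory H24.Ku KA

variable {X : ProjData}

/-- `(M⟦n⟧).obj ≅ M.obj⟦n⟧` -/
noncomputable def Base_shiftIso (M : Db X) (n : ℤ) : (M⟦n⟧).obj ≅ M.obj⟦n⟧ :=
  ((Bounded.ι (C := Coh X)).commShiftIso n).app M

lemma Base_hom_zero {M N : Db X} (f : M ⟶ N) (h : f.hom = 0) : f = 0 := by
  apply (Bounded.ι (C := Coh X)).map_injective
  rw [Functor.map_zero]
  exact h

lemma Base_eq_zero {A B : Db X} {C : DerivedCategory (Coh X)} (f : A ⟶ B) (e : B.obj ≅ C)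
    (h : f.hom ≫ e.hom = 0) : f = 0 := by
  refine Base_hom_zero f ?_
  have h1 : f.hom = (f.hom ≫ e.hom) ≫ e.inv := by
    rw [Category.assoc, Iso.hom_inv_id, Category.comp_id]
  rw [h1, h, zero_comp]

lemma Base_shift (M : Db X) (a b n : ℤ) (h : Rng M a b) : Rng (M⟦n⟧) (a - n) (b - n) := by
  obtain ⟨h1, h2⟩ := h
  have h3 := TStructure.t.isGE_shift M.obj a n (a - n)
  have h4 := TStructure.t.isLE_shift M.obj b n (b - n)
  exact ⟨TStructure.t.isGE_of_iso (Base_shiftIso M n).symm (a - n),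
    TStructure.t.isLE_of_iso (Base_shiftIso M n).symm (b - n)⟩

lemma Base_exists_range (M : Db X) : ∃ a b : ℤ, Rng M a b := by
  obtain ⟨⟨a, ha⟩, ⟨b, hb⟩⟩ := M.property
  exact ⟨a, b, ha, hb⟩

universe v u v' u'

lemma Base_transport {C : Type u} [Category.{v} C] [Preadditive C] [HasZeroObject C] [HasShift C ℤ]
    [∀ n : ℤ, (shiftFunctor C n).Additive] [Pretriangulated C]
    {D : Type u'} [Category.{v'} D] [Preadditive D] [HasZeroObject D] [HasShift D ℤ]
    [∀ n : ℤ, (shiftFunctor D n).Additive] [Pretriangulated D]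
    (F : C ⥤ D) [F.CommShift ℤ] [F.IsTriangulated] {E M M' : C} (e : E ⟶ M) (p : M ⟶ M')
    (d : M' ⟶ E⟦(1 : ℤ)⟧) (hT : Triangle.mk e p d ∈ distTriang C) {E' : D} (i : F.obj E ≅ E')
    (e' : E' ⟶ F.obj M) (h : F.map e = i.hom ≫ e') :
    Triangle.mk e' (F.map p)
      (F.map d ≫ (F.commShiftIso (1 : ℤ)).hom.app E ≫ i.hom⟦(1 : ℤ)⟧') ∈ distTriang D := by
  refine isomorphic_distinguished _ (F.map_distinguished _ hT) _ ?_
  refine Triangle.isoMk _ _ i.symm (Iso.refl _) (Iso.refl _) ?_ ?_ ?_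
  · show e' ≫ 𝟙 (F.obj M) = i.inv ≫ F.map e
    rw [h, Iso.inv_hom_id_assoc, Category.comp_id]
  · show F.map p ≫ 𝟙 (F.obj M') = 𝟙 (F.obj M) ≫ F.map p
    rw [Category.comp_id, Category.id_comp]
  · show (F.map d ≫ (F.commShiftIso (1 : ℤ)).hom.app E ≫ i.hom⟦(1 : ℤ)⟧') ≫ i.inv⟦(1 : ℤ)⟧' =
      𝟙 (F.obj M') ≫ F.map d ≫ (F.commShiftIso (1 : ℤ)).hom.app E
    rw [Category.id_comp, Category.assoc, Category.assoc, ← Functor.map_comp, Iso.hom_inv_id,
      CategoryTheory.Functor.map_id]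
    exact congrArg (fun g => F.map d ≫ g) (Category.comp_id _)

/-- The image of the biproduct. -/
noncomputable def Base_biprodIso (k : ℕ) (n b : ℤ) :
    (Bounded.ι (C := Coh X)).obj (⨁ fun _ : Fin k => (On X n)⟦-b⟧) ≅
      ⨁ fun _ : Fin k => ((S X).obj (O X (-n)))⟦-b⟧ :=
  (Bounded.ι (C := Coh X)).mapBiproduct (fun _ : Fin k => (On X n)⟦-b⟧) ≪≫
    biproduct.mapIso (fun _ : Fin k => Base_shiftIso (On X n) (-b))

theorem surfaceBase_of (hX : CohFacts X) : SurfaceBase (On X) (Rng (X := X)) where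
  exists_range := Base_exists_range
  shift := Base_shift
  zero_of M a b h hab := by
    obtain ⟨h1, h2⟩ := h
    have h3 : IsZero M.obj := TStructure.t.isZero M.obj b a hab
    rw [IsZero.iff_id_eq_zero]
    exact Base_hom_zero _ (h3.eq_of_src _ _)
  vanish M a b h := by
    obtain ⟨h1, h2⟩ := h
    obtain ⟨n₀, hn⟩ := vanish_D hX a b M.obj
    exact ⟨n₀, fun n hn0 j hj f => Base_eq_zero f (Base_shiftIso M j)
      (hn n hn0 j hj (f.hom ≫ (Base_shiftIso M j).hom))⟩
  step M a b h hab n₁ := by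
    obtain ⟨h1, h2⟩ := h
    obtain ⟨n, hn, k, e, he⟩ := step_D hX a b hab M.obj n₁
    refine ⟨n, hn, k, (Bounded.ι (C := Coh X)).preimage ((Base_biprodIso k n b).hom ≫ e), ?_⟩
    intro M' p d hT
    have hT' := (Bounded.ι (C := Coh X)).map_distinguished _ hT
    exact he M'.obj p.hom _ (Base_transport (Bounded.ι (C := Coh X)) _ p d hT
      (Base_biprodIso k n b) e (Functor.map_preimage _ _))
  cohdim M a b h n j hj f := by
    obtain ⟨h1, h2⟩ := h
    exact Base_eq_zero f (Base_shiftIso M j)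
      (cohdim_D hX a b M.obj (-n) j hj (f.hom ≫ (Base_shiftIso M j).hom))
  homdim := by
    obtain ⟨D, hD⟩ := homdim_D hX
    exact ⟨D, fun M N a b c d hM hN h f =>
      Base_hom_zero f (hD M.obj N.obj a b c d hM.1 hM.2 hN.1 hN.2 h f.hom)⟩
  extFin M N := by
    obtain ⟨a, b, hM⟩ := Base_exists_range M
    obtain ⟨c, d, hN⟩ := Base_exists_range N
    obtain ⟨D, hD⟩ := homdim_D hX
    refine ⟨fun i => ?_, ?_⟩
    · obtain ⟨h1, h2⟩ := hM
      obtain ⟨h3, h4⟩ := Base_shift N c d i hN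
      have h5 : Module.Finite ℂ ((Bounded.ι (C := Coh X)).obj M ⟶
        (Bounded.ι (C := Coh X)).obj (N⟦i⟧)) := fin_D hX M.obj (N⟦i⟧).obj a b (c - i) (d - i)
      exact Module.Finite.of_injective
        ((Bounded.ι (C := Coh X)).mapLinearMap ℂ : (M ⟶ N⟦i⟧) →ₗ[ℂ] _)
        (Bounded.ι (C := Coh X)).map_injective
    · refine ⟨(|d + D - a| + |b - c| + 1).toNat, fun i hi f => Base_hom_zero f ?_⟩
      have hi' : |d + D - a| + |b - c| + 1 ≤ |i| := le_trans (Int.self_le_toNat _) hi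
      obtain ⟨h1, h2⟩ := hM
      obtain ⟨h3, h4⟩ := Base_shift N c d i hN
      rcases le_or_gt 0 i with h0 | h0
      · rw [abs_of_nonneg h0] at hi'
        have h5 := le_abs_self (d + D - a)
        have h6 := abs_nonneg (b - c)
        exact hD M.obj (N⟦i⟧).obj a b (c - i) (d - i) h1 h2 h3 h4 (by lia) f.hom
      · rw [abs_of_neg h0] at hi'
        have h5 := abs_nonneg (d + D - a)
        have h6 := le_abs_self (b - c)
        exact TStructure.t.zero f.hom b (c - i) (by lia)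

end Pool.Agent.H63.KS
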