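import Mathlib

/-!
# KS-1 Range (induction on the amplitude of a bounded object of the derived category)

Proof of `range_induction`: induction on `(b - a).toNat` (for all `X`), after the case `b < a`
(`X` is zero: `X.IsGE a`, `X.IsLE b`; use `TStructure.t` facts or homology; `P` holds by `zero`).
`a = b`: `X ≅ (singleFunctor C a).obj Y` by `exists_iso_singleFunctor_obj_of_isGE_of_isLE`, and
`(singleFunctor C a).obj Y ≅ ((singleFunctor C 0).obj Y)⟦-a⟧` (`singleFunctors C` is a
`SingleFunctors`: `(SingleFunctors.shiftIso)`); use `iso` and `single`.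
`a < b`: truncation triangle `X' ⟶ X ⟶ X'' ⟶ X'⟦1⟧` with `X'.IsLE (b - 1)`, `X''.IsGE b`
(`TStructure.t.exists_triangle X (b-1) b`); `X'.IsGE a` and `X''.IsLE b` by the long exact homology
sequence (or the t-structure: `X'` is the fibre, `isGE₁`/`isLE₃`-type lemmas in
Mathlib/CategoryTheory/Triangulated/TStructure/Basic.lean). Then `ext`.
-/

namespace Pool.Agent.H63.KS

open CategoryTheory Limits Pretriangulated DerivedCategory

universe w v u

variable {C : Type u} [Category.{v} C] [Abelian C] [HasDerivedCategory.{w} C]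

/-- The stalk complex in degree `a` as a shift of the one in degree `0`. -/
noncomputable def Range_singleIso (a : ℤ) (Y : C) :
    ((singleFunctor C 0).obj Y)⟦-a⟧ ≅ (singleFunctor C a).obj Y :=
  ((singleFunctors C).shiftIso (-a) a 0 (by lia)).app Y

/-- The truncation triangle of a bounded object at its top degree. -/
theorem Range_truncation (a b : ℤ) (hab : a ≤ b) (X : DerivedCategory C) [X.IsGE a] [X.IsLE b] :
    ∃ (X' X'' : DerivedCategory C) (i : X' ⟶ X) (p : X ⟶ X'') (d : X'' ⟶ X'⟦(1 : ℤ)⟧),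
      Triangle.mk i p d ∈ distTriang _ ∧ X'.IsGE a ∧ X'.IsLE (b - 1) ∧ X''.IsGE b ∧ X''.IsLE b := by
  obtain ⟨X', X'', hX', hX'', i, p, d, hT⟩ := TStructure.t.exists_triangle X (b - 1) b (by lia)
  have h1 : X'.IsLE (b - 1) := ⟨hX'⟩
  have h2 : X''.IsGE b := ⟨hX''⟩
  refine ⟨X', X'', i, p, d, hT, ?_, h1, h2, ?_⟩
  · rw [isGE_iff]
    intro n hn
    have e := HomologySequence.exact₁ _ hT (n - 1) n (by lia)
    exact e.isZero_of_both_zeros ((X''.isZero_of_isGE b (n - 1) (by lia)).eq_zero_of_src _)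
      ((X.isZero_of_isGE a n hn).eq_zero_of_tgt _)
  · rw [isLE_iff]
    intro n hn
    have e := HomologySequence.exact₃ _ hT n (n + 1) rfl
    exact e.isZero_of_both_zeros ((X.isZero_of_isLE b n hn).eq_zero_of_src _)
      ((X'.isZero_of_isLE (b - 1) (n + 1) (by lia)).eq_zero_of_tgt _)

theorem range_induction (P : ℤ → ℤ → DerivedCategory C → Prop)
    (iso : ∀ (a b : ℤ) (X Y : DerivedCategory C), (X ≅ Y) → P a b X → P a b Y)
    (zero : ∀ (a b : ℤ) (X : DerivedCategory C), b < a → IsZero X → P a b X)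
    (single : ∀ (a : ℤ) (Q : C), P a a (((singleFunctor C 0).obj Q)⟦-a⟧))
    (ext : ∀ (a b : ℤ), a < b → ∀ T : Triangle (DerivedCategory C), T ∈ distTriang _ →
      P a (b - 1) T.obj₁ → P b b T.obj₃ → P a b T.obj₂)
    (a b : ℤ) (X : DerivedCategory C) [X.IsGE a] [X.IsLE b] : P a b X := by
  have base : ∀ (c : ℤ) (Y : DerivedCategory C), Y.IsGE c → Y.IsLE c → P c c Y := by
    intro c Y _ _
    obtain ⟨Z, ⟨e⟩⟩ := Y.exists_iso_singleFunctor_obj_of_isGE_of_isLE c
    exact iso c c _ _ (Range_singleIso c Z ≪≫ e.symm) (single c Z)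
  rcases lt_or_ge b a with hab | hab
  · exact zero a b X hab (TStructure.t.isZero X b a hab)
  · obtain ⟨n, hn⟩ := Int.eq_ofNat_of_zero_le (Int.sub_nonneg_of_le hab)
    have main : ∀ (n : ℕ) (b : ℤ), b - a = n → ∀ Y : DerivedCategory C, Y.IsGE a → Y.IsLE b →
        P a b Y := by
      intro n
      induction n with
      | zero =>
        intro b hb Y h1 h2
        obtain rfl : b = a := by simpa [sub_eq_zero] using hb
        exact base b Y h1 h2
      | succ n ih =>
        intro b hb Y h1 h2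
        have hab : a < b := by push_cast at hb; lia
        obtain ⟨X', X'', i, p, d, hT, h3, h4, h5, h6⟩ := Range_truncation a b hab.le Y
        exact ext a b hab _ hT (ih (b - 1) (by push_cast at hb; lia) X' h3 h4) (base b X'' h5 h6)
    exact main n b hn X inferInstance inferInstance

/-- The top truncation triangle with its outer terms identified. -/
theorem exists_top_triangle (b : ℤ) (a : ℤ) (hab : a ≤ b) (X : DerivedCategory C) [X.IsGE a]
    [X.IsLE b] :
    ∃ (X' : DerivedCategory C) (i : X' ⟶ X)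
      (p : X ⟶ ((singleFunctor C 0).obj ((homologyFunctor C b).obj X))⟦-b⟧)
      (d : ((singleFunctor C 0).obj ((homologyFunctor C b).obj X))⟦-b⟧ ⟶ X'⟦(1 : ℤ)⟧),
      Triangle.mk i p d ∈ distTriang _ ∧ X'.IsGE a ∧ X'.IsLE (b - 1) := by
  obtain ⟨X', X'', i, p, d, hT, h3, h4, h5, h6⟩ := Range_truncation a b hab X
  obtain ⟨Y, ⟨e⟩⟩ := X''.exists_iso_singleFunctor_obj_of_isGE_of_isLE b
  have hp : IsIso ((homologyFunctor C b).map p) := by
    have hm : Mono ((homologyFunctor C b).map p) := by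
      have := (HomologySequence.mono_homologyMap_mor₂_iff _ hT b).2
        ((X'.isZero_of_isLE (b - 1) b (by lia)).eq_zero_of_src _)
      exact this
    have he : Epi ((homologyFunctor C b).map p) := by
      have := (HomologySequence.epi_homologyMap_mor₂_iff _ hT b (b + 1) rfl).2
        ((X'.isZero_of_isLE (b - 1) (b + 1) (by lia)).eq_zero_of_tgt _)
      exact this
    exact isIso_of_mono_of_epi _
  let e1 : (homologyFunctor C b).obj X ≅ Y :=
    asIso ((homologyFunctor C b).map p) ≪≫ (homologyFunctor C b).mapIso e ≪≫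
      (singleFunctorCompHomologyFunctorIso C b).app Y
  let e2 : ((singleFunctor C 0).obj ((homologyFunctor C b).obj X))⟦-b⟧ ≅ X'' :=
    Range_singleIso b _ ≪≫ (singleFunctor C b).mapIso e1 ≪≫ e.symm
  refine ⟨X', i, p ≫ e2.inv, e2.hom ≫ d, ?_, h3, h4⟩
  refine isomorphic_distinguished _ hT _ ?_
  refine Triangle.isoMk _ _ (Iso.refl _) (Iso.refl _) e2 ?_ ?_ ?_
  · show i ≫ 𝟙 X = 𝟙 X' ≫ i
    rw [Category.comp_id, Category.id_comp]
  · show (p ≫ e2.inv) ≫ e2.hom = 𝟙 X ≫ p
    rw [Category.assoc, Iso.inv_hom_id, Category.comp_id, Category.id_comp]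
  · show (e2.hom ≫ d) ≫ (𝟙 X')⟦(1 : ℤ)⟧' = e2.hom ≫ d
    rw [CategoryTheory.Functor.map_id, Category.comp_id]

end Pool.Agent.H63.KS
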