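import Pool.Agent.H63.KS.Facts
import Pool.Agent.H63.KS.Range

/-!
# KS-2 Dev (devissage from coherent sheaves to complexes: four vanishing statements)

All by `range_induction` in `DerivedCategory (Coh X)`, with the long exact sequence of
`Hom(A, -)` for a shifted triangle (`Triangle.coyoneda_exact₂`, `Triangle.shift_distinguished`),
resp. `Hom(-, B)` (`Triangle.yoneda_exact₂`).
* `vanish_D`: `P a b M := ∃ n₀, ∀ n ≥ n₀, ∀ j > b, ∀ f : S (O(-n)) ⟶ M⟦j⟧, f = 0`. For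
`M = (S Q)⟦-a⟧`: `M⟦j⟧ ≅ (S Q)⟦j - a⟧`, `j - a ≥ 1`, `serre`. Extension: max of the two `n₀`.
* `cohdim_D`: the same with all `n` and `j > b + 2`, `cohdim`.
* `homdim_D`: first `M = S Q`, `P a b N := ∀ i, b + D ≤ i → every f : S Q ⟶ N⟦i⟧ is 0`, hence for
`M` arbitrary: `P' a b M := for all c d N in range [c,d], d + D ≤ a → every f : M ⟶ N is 0`.
For `M = (S Q)⟦-a⟧`: `Hom((S Q)⟦-a⟧, N) ≅ Hom(S Q, N⟦a⟧)`.
* `fin_D`: `Hom(M, N)` is finite dimensional for bounded `M, N`: first `M = (S Q)`, all `N⟦i⟧`,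
then all `M`. In an exact sequence of vector spaces `A ⟶ B ⟶ C` with `A, C` finite dimensional `B`
is finite dimensional.
-/

namespace Pool.Agent.H63.KS

open CategoryTheory Limits Pretriangulated DerivedCategory H24.Ku

/-! ### Generalities in a pretriangulated category -/

section General

universe v u

variable {T : Type u} [Category.{v} T] [Preadditive T] [HasZeroObject T] [HasShift T ℤ]
  [∀ n : ℤ, (shiftFunctor T n).Additive] [Pretriangulated T]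

theorem Dev_zero_coyo (t : Triangle T) (ht : t ∈ distTriang _) (A : T) (j : ℤ)
    (h1 : ∀ f : A ⟶ t.obj₁⟦j⟧, f = 0) (h3 : ∀ f : A ⟶ t.obj₃⟦j⟧, f = 0)
    (f : A ⟶ t.obj₂⟦j⟧) : f = 0 := by
  obtain ⟨ψ, hψ⟩ := Triangle.coyoneda_exact₂ _ (Triangle.shift_distinguished t ht j) f (h3 _)
  have hψ0 : ψ = 0 := h1 ψ
  subst hψ0
  exact hψ.trans zero_comp

theorem Dev_zero_yo (t : Triangle T) (ht : t ∈ distTriang _) (B : T)
    (h1 : ∀ f : t.obj₁ ⟶ B, f = 0) (h3 : ∀ f : t.obj₃ ⟶ B, f = 0)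
    (f : t.obj₂ ⟶ B) : f = 0 := by
  obtain ⟨ψ, hψ⟩ := Triangle.yoneda_exact₂ _ ht f (h1 _)
  rw [hψ, h3 ψ, comp_zero]

/-- Maps out of `A[-a]` vanish as soon as the maps `A ⟶ N[a]` vanish. -/
theorem Dev_zero_shift (A N : T) (a : ℤ) (h : ∀ f : A ⟶ N⟦a⟧, f = 0) (f : A⟦-a⟧ ⟶ N) : f = 0 := by
  apply (shiftFunctor T a).map_injective
  rw [Functor.map_zero]
  have h2 := h ((shiftFunctorCompIsoId T (-a) a (by lia)).inv.app A ≫ f⟦a⟧')
  rw [← cancel_epi ((shiftFunctorCompIsoId T (-a) a (by lia)).inv.app A), h2, comp_zero]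

theorem Dev_fin_of_exact {V₁ V₂ V₃ : Type*} [AddCommGroup V₁] [Module ℂ V₁] [AddCommGroup V₂]
    [Module ℂ V₂] [AddCommGroup V₃] [Module ℂ V₃] [Module.Finite ℂ V₁] [Module.Finite ℂ V₃]
    (f : V₁ →ₗ[ℂ] V₂) (g : V₂ →ₗ[ℂ] V₃) (h : LinearMap.ker g ≤ LinearMap.range f) :
    Module.Finite ℂ V₂ := by
  refine ⟨Submodule.fg_of_fg_map_of_fg_inf_ker g (IsNoetherian.noetherian _) ?_⟩
  rw [top_inf_eq]
  have h1 : (LinearMap.range f).FG := by
    rw [LinearMap.range_eq_map]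
    exact Submodule.FG.map f Module.Finite.fg_top
  have : IsNoetherian ℂ (LinearMap.range f) := isNoetherian_of_fg_of_noetherian _ h1
  exact Submodule.FG.of_le h1 h

variable [Linear ℂ T]

theorem Dev_fin_coyo (t : Triangle T) (ht : t ∈ distTriang _) (A : T) (j : ℤ)
    (h1 : Module.Finite ℂ (A ⟶ t.obj₁⟦j⟧)) (h3 : Module.Finite ℂ (A ⟶ t.obj₃⟦j⟧)) :
    Module.Finite ℂ (A ⟶ t.obj₂⟦j⟧) := by
  have ht' := Triangle.shift_distinguished t ht j
  have h1' : Module.Finite ℂ (A ⟶ ((CategoryTheory.shiftFunctor (Triangle T) j).obj t).obj₁) := h1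
  have h3' : Module.Finite ℂ (A ⟶ ((CategoryTheory.shiftFunctor (Triangle T) j).obj t).obj₃) := h3
  refine Dev_fin_of_exact
    (Linear.rightComp ℂ A ((CategoryTheory.shiftFunctor (Triangle T) j).obj t).mor₁)
    (Linear.rightComp ℂ A ((CategoryTheory.shiftFunctor (Triangle T) j).obj t).mor₂) ?_
  intro f hf
  obtain ⟨ψ, hψ⟩ := Triangle.coyoneda_exact₂ _ ht' f hf
  exact ⟨ψ, hψ.symm⟩

theorem Dev_fin_yo (t : Triangle T) (ht : t ∈ distTriang _) (B : T)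
    (h1 : Module.Finite ℂ (t.obj₁ ⟶ B)) (h3 : Module.Finite ℂ (t.obj₃ ⟶ B)) :
    Module.Finite ℂ (t.obj₂ ⟶ B) := by
  refine Dev_fin_of_exact (Linear.leftComp ℂ B t.mor₂) (Linear.leftComp ℂ B t.mor₁) ?_
  intro f hf
  obtain ⟨ψ, hψ⟩ := Triangle.yoneda_exact₂ _ ht f hf
  exact ⟨ψ, hψ.symm⟩

theorem Dev_fin_iso {A B A' B' : T} (e : A ≅ A') (e' : B ≅ B') (h : Module.Finite ℂ (A ⟶ B)) :
    Module.Finite ℂ (A' ⟶ B') :=
  Module.Finite.equiv (Linear.homCongr ℂ e e')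

theorem Dev_fin_shift [∀ n : ℤ, (shiftFunctor T n).Linear ℂ] (A N : T) (a : ℤ)
    (h : Module.Finite ℂ (A ⟶ N⟦a⟧)) : Module.Finite ℂ (A⟦-a⟧ ⟶ N) := by
  have h1 : Module.Finite ℂ (A⟦-a⟧⟦a⟧ ⟶ N⟦a⟧) :=
    Dev_fin_iso ((shiftFunctorCompIsoId T (-a) a (by lia)).symm.app A) (Iso.refl _) h
  exact Module.Finite.of_injective ((shiftFunctor T a).mapLinearMap ℂ (X := A⟦-a⟧) (Y := N))
    (shiftFunctor T a).map_injective

theorem Dev_fin_of_isZero {A B : T} (h : IsZero B) : Module.Finite ℂ (A ⟶ B) := by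
  have : Subsingleton (A ⟶ B) := ⟨fun f g => h.eq_of_tgt f g⟩
  infer_instance

theorem Dev_fin_of_isZero' {A B : T} (h : IsZero A) : Module.Finite ℂ (A ⟶ B) := by
  have : Subsingleton (A ⟶ B) := ⟨fun f g => h.eq_of_src f g⟩
  infer_instance

end General

variable {X : ProjData}

/-- `(S Q)[-a][j] = (S Q)[j - a]` -/
noncomputable def Dev_shiftIso (Y : DerivedCategory (Coh X)) (a j : ℤ) :
    Y⟦-a⟧⟦j⟧ ≅ Y⟦j - a⟧ :=
  ((shiftFunctorAdd' (DerivedCategory (Coh X)) (-a) j (j - a) (by lia)).app Y).symm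

theorem vanish_D (hX : CohFacts X) (a b : ℤ) (M : DerivedCategory (Coh X)) [M.IsGE a] [M.IsLE b] :
    ∃ n₀ : ℤ, ∀ n ≥ n₀, ∀ j > b, ∀ f : (S X).obj (O X (-n)) ⟶ M⟦j⟧, f = 0 := by
  refine range_induction (fun a b M => ∃ n₀ : ℤ, ∀ n ≥ n₀, ∀ j > b,
    ∀ f : (S X).obj (O X (-n)) ⟶ M⟦j⟧, f = 0) ?_ ?_ ?_ ?_ a b M
  · rintro a b M N e ⟨n₀, h⟩
    refine ⟨n₀, fun n hn j hj f => ?_⟩
    exact (cancel_mono (e.inv⟦j⟧')).1 ((h n hn j hj _).trans zero_comp.symm)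
  · intro a b M _ hM
    exact ⟨0, fun n _ j _ f => ((shiftFunctor _ j).map_isZero hM).eq_of_tgt _ _⟩
  · intro a Q
    obtain ⟨n₀, h⟩ := hX.serre Q
    refine ⟨n₀, fun n hn j hj f => ?_⟩
    exact (cancel_mono (Dev_shiftIso _ a j).hom).1 ((h n hn (j - a) (by lia) _).trans zero_comp.symm)
  · rintro a b _ T hT ⟨n₁, h₁⟩ ⟨n₃, h₃⟩
    refine ⟨max n₁ n₃, fun n hn j hj f => ?_⟩
    exact Dev_zero_coyo T hT _ j (h₁ n (le_trans (le_max_left _ _) hn) j (by lia))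
      (h₃ n (le_trans (le_max_right _ _) hn) j hj) f

theorem cohdim_D (hX : CohFacts X) (a b : ℤ) (M : DerivedCategory (Coh X)) [M.IsGE a] [M.IsLE b]
    (n j : ℤ) (hj : b + 2 < j) (f : (S X).obj (O X n) ⟶ M⟦j⟧) : f = 0 := by
  refine range_induction (fun a b M => ∀ j, b + 2 < j →
    ∀ f : (S X).obj (O X n) ⟶ M⟦j⟧, f = 0) ?_ ?_ ?_ ?_ a b M j hj f
  · intro a b M N e h j hj f
    exact (cancel_mono (e.inv⟦j⟧')).1 ((h j hj _).trans zero_comp.symm)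
  · intro a b M _ hM j _ f
    exact ((shiftFunctor _ j).map_isZero hM).eq_of_tgt _ _
  · intro a Q j hj f
    exact (cancel_mono (Dev_shiftIso _ a j).hom).1
      ((hX.cohdim Q n (j - a) (by lia) _).trans zero_comp.symm)
  · intro a b _ T hT h₁ h₃ j hj f
    exact Dev_zero_coyo T hT _ j (h₁ j (by lia)) (h₃ j hj) f

theorem homdim_D (hX : CohFacts X) : ∃ D : ℕ, ∀ (M N : DerivedCategory (Coh X)) (a b c d : ℤ),
    M.IsGE a → M.IsLE b → N.IsGE c → N.IsLE d → d + D ≤ a → ∀ f : M ⟶ N, f = 0 := by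
  obtain ⟨D, hD⟩ := hX.gldim
  refine ⟨D, ?_⟩
  have step1 : ∀ (Q : Coh X) (N : DerivedCategory (Coh X)) (c d : ℤ), N.IsGE c → N.IsLE d →
      ∀ i : ℤ, d + D ≤ i → ∀ f : (S X).obj Q ⟶ N⟦i⟧, f = 0 := by
    intro Q N c d _ _
    refine range_induction (fun c d N => ∀ i : ℤ, d + D ≤ i →
      ∀ f : (S X).obj Q ⟶ N⟦i⟧, f = 0) ?_ ?_ ?_ ?_ c d N
    · intro a b M N e h j hj f
      exact (cancel_mono (e.inv⟦j⟧')).1 ((h j hj _).trans zero_comp.symm)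
    · intro a b M _ hM j _ f
      exact ((shiftFunctor _ j).map_isZero hM).eq_of_tgt _ _
    · intro a Q' j hj f
      exact (cancel_mono (Dev_shiftIso _ a j).hom).1 ((hD Q Q' (j - a) (by lia) _).trans zero_comp.symm)
    · intro a b _ T hT h₁ h₃ j hj f
      exact Dev_zero_coyo T hT _ j (h₁ j (by lia)) (h₃ j hj) f
  intro M N a b c d _ _ hc hd hle f
  refine range_induction (fun a b M => ∀ (c d : ℤ) (N : DerivedCategory (Coh X)), N.IsGE c →
    N.IsLE d → d + D ≤ a → ∀ f : M ⟶ N, f = 0) ?_ ?_ ?_ ?_ a b M c d N hc hd hle f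
  · intro a b M M' e h c d N hc hd hle f
    exact (cancel_epi e.hom).1 ((h c d N hc hd hle _).trans comp_zero.symm)
  · intro a b M _ hM c d N _ _ _ f
    exact hM.eq_of_src _ _
  · intro a Q c d N hc hd hle f
    exact Dev_zero_shift _ _ a (step1 Q N c d hc hd a hle) f
  · intro a b hab T hT h₁ h₃ c d N hc hd hle f
    exact Dev_zero_yo T hT N (h₁ c d N hc hd hle) (h₃ c d N hc hd (by lia)) f

theorem fin_D (hX : CohFacts X) (M N : DerivedCategory (Coh X)) (a b c d : ℤ)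
    [M.IsGE a] [M.IsLE b] [N.IsGE c] [N.IsLE d] : Module.Finite ℂ (M ⟶ N) := by
  have step1 : ∀ (Q : Coh X) (i : ℤ), Module.Finite ℂ ((S X).obj Q ⟶ N⟦i⟧) := by
    intro Q
    refine range_induction (fun c d N => ∀ i : ℤ,
      Module.Finite ℂ ((S X).obj Q ⟶ N⟦i⟧)) ?_ ?_ ?_ ?_ c d N
    · intro a b M N e h j
      exact Dev_fin_iso (Iso.refl _) ((shiftFunctor _ j).mapIso e) (h j)
    · intro a b M _ hM j
      exact Dev_fin_of_isZero ((shiftFunctor _ j).map_isZero hM)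
    · intro a Q' j
      exact Dev_fin_iso (Iso.refl _) (Dev_shiftIso _ a j).symm (hX.fin Q Q' (j - a))
    · intro a b _ T hT h₁ h₃ j
      exact Dev_fin_coyo T hT _ j (h₁ j) (h₃ j)
  refine range_induction (fun a b M => Module.Finite ℂ (M ⟶ N)) ?_ ?_ ?_ ?_ a b M
  · intro a b M M' e h
    exact Dev_fin_iso e (Iso.refl _) h
  · intro a b M _ hM
    exact Dev_fin_of_isZero' hM
  · intro a Q
    exact Dev_fin_shift _ _ a (step1 Q a)
  · intro a b _ T hT h₁ h₃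
    exact Dev_fin_yo T hT N h₁ h₃

end Pool.Agent.H63.KS
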