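import Pool.Agent.H63.KS.Dev

/-!
# KS-3 StepD (sums of line bundles onto the top cohomology sheaf of a complex)

Proof. Let `X' ⟶(i) M ⟶(p) (S Q)⟦-b⟧ ⟶(d) X'⟦1⟧` be the top truncation triangle
(`exists_top_triangle`, `Q = H^b(M)`), `n₀` from `vanish_D` for `X'` (range `[a, b-1]`).
`gen Q (max n₀ n₁)` gives `n`, `k` and an epimorphism `e₀ : ⨁ O(-n) ⟶ Q`. The map
`e₁ : ⨁ (S O(-n))⟦-b⟧ ⟶ (S Q)⟦-b⟧` with components `(S (ι_l ≫ e₀))⟦-b⟧'` composed with `d` is zero:
the components are maps `(S O(-n))⟦-b⟧ ⟶ X'⟦1⟧`, i.e. `S O(-n) ⟶ X'⟦1 + b⟧`, and `1 + b > b - 1`. So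
`e₁ = e ≫ p` (`Triangle.coyoneda_exact₃`...). `e` is the map. Let `E ⟶(e) M ⟶ M' ⟶ E⟦1⟧` be
distinguished. Long exact homology sequence
(Mathlib/Algebra/Homology/DerivedCategory/HomologySequence.lean): `H^j(E) = 0` for `j ≠ b`,
`H^b(e)` is an epimorphism: `H^b(p)` is an isomorphism (or: `H^b(e) ≫ H^b(p) = H^b(e₁)` is an
epimorphism, being `e₀` up to isomorphisms, and `H^b(p)` is a monomorphism since `H^b(X') = 0`).
So `H^j(M') = 0` for `j > b - 1`, and for `j < a`, `j ≠ b - 1`: `H^j(M) = 0`, `H^{j+1}(E) = 0`. Use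
`isGE_iff`, `isLE_iff`.
-/

namespace Pool.Agent.H63.KS

open CategoryTheory Limits Pretriangulated DerivedCategory H24.Ku

variable {X : ProjData}

/-- A map `A⟦-b⟧ ⟶ B⟦1⟧` is zero if all maps `A ⟶ B⟦1 + b⟧` are. -/
theorem StepD_shift_zero {D : Type*} [Category* D] [Preadditive D] [HasShift D ℤ]
    [∀ n : ℤ, (shiftFunctor D n).Additive] {A B : D} (b c : ℤ) (hc : 1 + b = c)
    (h : ∀ f : A ⟶ B⟦c⟧, f = 0) (g : A⟦-b⟧ ⟶ B⟦(1 : ℤ)⟧) : g = 0 := by
  have h1 := h ((shiftFunctorCompIsoId D (-b) b (by lia)).inv.app A ≫ g⟦b⟧' ≫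
    (shiftFunctorAdd' D 1 b c hc).inv.app B)
  have h2 : g⟦b⟧' = 0 := by
    have h3 := congrArg (fun t => (shiftFunctorCompIsoId D (-b) b (by lia)).hom.app A ≫ t ≫
      (shiftFunctorAdd' D 1 b c hc).hom.app B) h1
    simpa using h3
  exact (shiftFunctor D b).map_injective (by rw [h2, Functor.map_zero])

section
universe w v u
variable {C : Type u} [Category.{v} C] [Abelian C] [HasDerivedCategory.{w} C]

theorem StepD_isZero_homology_biproduct {k : ℕ} (A : Fin k → DerivedCategory C) (j : ℤ)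
    (h : ∀ l, IsZero ((homologyFunctor C j).obj (A l))) :
    IsZero ((homologyFunctor C j).obj (⨁ A)) := by
  rw [IsZero.iff_id_eq_zero, ← CategoryTheory.Functor.map_id, ← biproduct.total, Functor.map_sum]
  apply Finset.sum_eq_zero
  intro l _
  rw [Functor.map_comp, (h l).eq_zero_of_tgt ((homologyFunctor C j).map _), zero_comp]

theorem StepD_isZero_homology_single (A : C) (b j : ℤ) (hj : j ≠ b) :
    IsZero ((homologyFunctor C j).obj (((singleFunctor C 0).obj A)⟦-b⟧)) := by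
  refine IsZero.of_iso ?_ ((homologyFunctor C j).mapIso (Range_singleIso b A))
  rcases lt_or_gt_of_ne hj with h | h
  · exact ((singleFunctor C b).obj A).isZero_of_isGE b j h
  · exact ((singleFunctor C b).obj A).isZero_of_isLE b j h

/-- `H^b ((S A)⟦-b⟧) ≅ A`, naturally. -/
noncomputable def StepD_iso (b : ℤ) :
    (singleFunctor C 0 ⋙ shiftFunctor (DerivedCategory C) (-b)) ⋙ homologyFunctor C b ≅ 𝟭 C :=
  Functor.isoWhiskerRight ((singleFunctors C).shiftIso (-b) b 0 (by lia)) (homologyFunctor C b) ≪≫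
    singleFunctorCompHomologyFunctorIso C b

theorem StepD_epi {A B : C} (b : ℤ) (e : A ⟶ B) [Epi e] :
    Epi ((homologyFunctor C b).map (((singleFunctor C 0).map e)⟦-b⟧')) := by
  have h1 : ((singleFunctor C 0 ⋙ shiftFunctor (DerivedCategory C) (-b)) ⋙
      homologyFunctor C b).PreservesEpimorphisms :=
    Functor.PreservesEpimorphisms.of_iso (StepD_iso (C := C) b).symm
  exact h1.preserves e

theorem StepD_epi_desc [HasFiniteBiproducts C] {k : ℕ} {A : C} {B : C} (b : ℤ) (e : (⨁ fun _ : Fin k => A) ⟶ B) [Epi e] :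
    Epi ((homologyFunctor C b).map (biproduct.desc (f := fun _ : Fin k =>
      ((singleFunctor C 0).obj A)⟦-b⟧)
      (fun l => ((singleFunctor C 0).map (biproduct.ι (fun _ : Fin k => A) l ≫ e))⟦-b⟧'))) := by
  let F := singleFunctor C 0 ⋙ shiftFunctor (DerivedCategory C) (-b)
  have h1 : biproduct.desc (f := fun _ : Fin k => ((singleFunctor C 0).obj A)⟦-b⟧)
      (fun l => ((singleFunctor C 0).map (biproduct.ι (fun _ : Fin k => A) l ≫ e))⟦-b⟧') =
      (F.mapBiproduct (fun _ : Fin k => A)).inv ≫ F.map e := by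
    rw [Functor.mapBiproduct_inv]
    ext l
    simp [F]
  rw [h1, Functor.map_comp]
  have h2 : Epi ((homologyFunctor C b).map (F.map e)) := StepD_epi b e
  exact epi_comp _ _

end

theorem step_D (hX : CohFacts X) (a b : ℤ) (hab : a ≤ b) (M : DerivedCategory (Coh X)) [M.IsGE a]
    [M.IsLE b] (n₁ : ℤ) :
    ∃ n ≥ n₁, ∃ (k : ℕ) (e : (⨁ fun _ : Fin k => ((S X).obj (O X (-n)))⟦-b⟧) ⟶ M),
      ∀ (M' : DerivedCategory (Coh X)) (p : M ⟶ M')
        (d : M' ⟶ (⨁ fun _ : Fin k => ((S X).obj (O X (-n)))⟦-b⟧)⟦(1 : ℤ)⟧),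
        Triangle.mk e p d ∈ distTriang _ → M'.IsGE (min a (b - 1)) ∧ M'.IsLE (b - 1) := by
  obtain ⟨X', i, p₀, d₀, hT, h1, h2⟩ := exists_top_triangle b a hab M
  obtain ⟨n₀, hn₀⟩ := vanish_D hX a (b - 1) X'
  obtain ⟨n, hn, k, e₀, he₀⟩ := hX.gen ((homologyFunctor (Coh X) b).obj M) (max n₀ n₁)
  refine ⟨n, le_trans (le_max_right _ _) hn, k, ?_⟩
  let e₁ : (⨁ fun _ : Fin k => ((S X).obj (O X (-n)))⟦-b⟧) ⟶
      ((singleFunctor (Coh X) 0).obj ((homologyFunctor (Coh X) b).obj M))⟦-b⟧ :=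
    biproduct.desc (f := fun _ : Fin k => ((singleFunctor (Coh X) 0).obj (O X (-n)))⟦-b⟧)
      (fun l => ((singleFunctor (Coh X) 0).map
        (biproduct.ι (fun _ : Fin k => O X (-n)) l ≫ e₀))⟦-b⟧')
  have he₁ : e₁ ≫ d₀ = 0 := by
    apply biproduct.hom_ext'
    intro l
    rw [comp_zero]
    exact StepD_shift_zero b (1 + b) rfl
      (fun f => hn₀ n (le_trans (le_max_left _ _) hn) (1 + b) (by lia) f) _
  obtain ⟨e, he⟩ : ∃ e : (⨁ fun _ : Fin k => ((S X).obj (O X (-n)))⟦-b⟧) ⟶ M, e₁ = e ≫ p₀ :=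
    Triangle.coyoneda_exact₃ _ hT e₁ he₁
  refine ⟨e, ?_⟩
  intro M' p d hT'
  have hE : ∀ j, j ≠ b → IsZero ((homologyFunctor (Coh X) j).obj
      (⨁ fun _ : Fin k => ((S X).obj (O X (-n)))⟦-b⟧)) := fun j hj =>
    StepD_isZero_homology_biproduct _ j (fun l => StepD_isZero_homology_single _ b j hj)
  have hmono : Mono ((homologyFunctor (Coh X) b).map p₀) := by
    exact (HomologySequence.mono_homologyMap_mor₂_iff _ hT b).2
        ((X'.isZero_of_isLE (b - 1) b (by lia)).eq_zero_of_src _)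
  have hepi₁ : Epi ((homologyFunctor (Coh X) b).map e₁) := StepD_epi_desc b e₀
  have hcomp : (homologyFunctor (Coh X) b).map e ≫ (homologyFunctor (Coh X) b).map p₀ =
      (homologyFunctor (Coh X) b).map e₁ := by
    rw [← Functor.map_comp]; exact congrArg _ he.symm
  have hepi₀ : Epi ((homologyFunctor (Coh X) b).map p₀) := by
    rw [← hcomp] at hepi₁
    exact epi_of_epi ((homologyFunctor (Coh X) b).map e) ((homologyFunctor (Coh X) b).map p₀)
  have hiso : IsIso ((homologyFunctor (Coh X) b).map p₀) := isIso_of_mono_of_epi _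
  have hepi : Epi ((homologyFunctor (Coh X) b).map e) := by
    have : (homologyFunctor (Coh X) b).map e =
        (homologyFunctor (Coh X) b).map e₁ ≫ inv ((homologyFunctor (Coh X) b).map p₀) := by
      rw [← hcomp, Category.assoc, IsIso.hom_inv_id, Category.comp_id]
    rw [this]
    exact epi_comp _ _
  constructor
  · rw [isGE_iff]
    intro j hj
    have h3 := HomologySequence.exact₃ _ hT' j (j + 1) rfl
    exact h3.isZero_of_both_zeros ((M.isZero_of_isGE a j (by lia)).eq_zero_of_src _)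
      ((hE (j + 1) (by lia)).eq_zero_of_tgt _)
  · rw [isLE_iff]
    intro j hj
    have h3 := HomologySequence.exact₃ _ hT' j (j + 1) rfl
    refine h3.isZero_of_both_zeros ?_ ((hE (j + 1) (by lia)).eq_zero_of_tgt _)
    rcases eq_or_lt_of_le (show b ≤ j by lia) with h4 | h4
    · subst h4
      exact (HomologySequence.epi_homologyMap_mor₁_iff _ hT' b).1 hepi
    · exact (M.isZero_of_isLE b j h4).eq_zero_of_src _

end Pool.Agent.H63.KS
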